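import Pool.Agent.Q219.DU.Fam
import Pool.Agent.Q219.DU.El

/-!
# The smallest local Euler factor, and the degrees of the local Euler factors

`W` is a topological group with a homomorphism `ν` to `ℤ` with open kernel and an element `F` with `ν F = 1`
(the Weil group of `ℚ_p`). A family `X` consists of Weil–Deligne representations over the `ℚ_ℓ`, `ℓ ≠ p`, in
all degrees; `X × E` is given by the Künneth formula. Nothing is assumed in parts (1) and (2).

Let the weight-monodromy conjecture be true for the family `X` and ONE prime `ℓ₀`.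

(1) Let the traces of the elements of the Weil group be independent of `ℓ`. Then the Euler factor of `X`
for `ℓ₀` has integral coefficients and DIVIDES the Euler factor for every other prime `ℓ`; the two are equal
if (and only if) their DEGREES are equal, i.e. if the dimensions of the inertia invariants are equal. The same
is true over all finite extensions of `ℚ_p`, and for the products `X × E ^ k`. If the degrees are equal for all
`X × E ^ k` over all finite extensions, then the weight-monodromy conjecture is true for `X` and `ℓ`.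

(2) The Euler factors of all `X × E ^ k` over all finite extensions are integral and independent of `ℓ` if and
only if the traces and the degrees are independent of `ℓ`, and if and only if the traces are independent of
`ℓ` and the weight-monodromy conjecture is true for `X` and all `ℓ`.

(3) The same with Euler factors over `ℚ_p` only, for a class of varieties with the known properties.
-/

set_option autoImplicit false

namespace Pool.Agent.Results.MP_898f40_nt.DegreesSuffice

open Pool.Agent.Q173.WD Pool.Agent.Q219.DG Pool.Agent.Q219.DU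

variable {p : ℕ} [hp : Fact p.Prime] {W : Type} [Group W] [TopologicalSpace W]

theorem result [IsTopologicalGroup W] (ν : W →* Multiplicative ℤ) (hν : IsOpen (ν.ker : Set W)) (F : W)
    (hF : dg ν F = 1) :
    (∀ (X : Fam p W ν) (ℓ₀ : Aux p), WM (families p W ν) F ℓ₀ X →
      (SameTraces (families p W ν) ν X →
        (∀ (k : ℕ) (U : Subgroup W) (w : W), IsField ν U → IsFrob ν U w →
          (∀ n, ∃ R : Polynomial ℤ,
            IsInt (factor (families p W ν) ν U w (stack Fam.timesE X k) ℓ₀ n) R ∧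
            ∀ ℓ, Divs R (factor (families p W ν) ν U w (stack Fam.timesE X k) ℓ n) ∧
              (IsInt (factor (families p W ν) ν U w (stack Fam.timesE X k) ℓ n) R ↔
                degFactor (families p W ν) ν U w (stack Fam.timesE X k) ℓ n ≤
                  degFactor (families p W ν) ν U w (stack Fam.timesE X k) ℓ₀ n)) ∧
          ((families p W ν).Good ν U w 1 (stack Fam.timesE X k) ↔ ∀ ℓ n,
            degFactor (families p W ν) ν U w (stack Fam.timesE X k) ℓ n ≤
              degFactor (families p W ν) ν U w (stack Fam.timesE X k) ℓ₀ n)) ∧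
        (∀ ℓ, WM (families p W ν) F ℓ X ↔
          ∀ (k : ℕ) (U : Subgroup W) (w : W), IsField ν U → IsFrob ν U w → ∀ n,
            degFactor (families p W ν) ν U w (stack Fam.timesE X k) ℓ n ≤
              degFactor (families p W ν) ν U w (stack Fam.timesE X k) ℓ₀ n)) ∧
      ((∀ (k : ℕ) (U : Subgroup W) (w : W), IsField ν U → IsFrob ν U w →
          (families p W ν).Good ν U w 1 (stack Fam.timesE X k)) ↔
        SameTraces (families p W ν) ν X ∧
          ∀ (k : ℕ) (U : Subgroup W) (w : W), IsField ν U → IsFrob ν U w → ∀ ℓ ℓ' n,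
            degFactor (families p W ν) ν U w (stack Fam.timesE X k) ℓ n =
              degFactor (families p W ν) ν U w (stack Fam.timesE X k) ℓ' n) ∧
      ((∀ (k : ℕ) (U : Subgroup W) (w : W), IsField ν U → IsFrob ν U w →
          (families p W ν).Good ν U w 1 (stack Fam.timesE X k)) ↔
        SameTraces (families p W ν) ν X ∧ ∀ ℓ, WM (families p W ν) F ℓ X)) ∧
    (∀ (C : Type) (T : Theory p W C) (E : C → C), Facts T ν E → (∀ X, ∃ ℓ₀, WM T F ℓ₀ X) →
      (Q1 T ν ↔ (∀ X, SameTraces T ν X) ∧
        ∀ X ℓ ℓ' n, degFactor T ν ⊤ F X ℓ n = degFactor T ν ⊤ F X ℓ' n) ∧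
      (Q1 T ν ↔ (∀ X, SameTraces T ν X) ∧ ∀ X ℓ, WM T F ℓ X)) := by
  refine ⟨fun X ℓ₀ hW => ?_, fun C T E h hW => ?_⟩
  · have h : Core (families p W ν) ν Fam.timesE := core hν
    have b3 : SameTraces (families p W ν) ν X →
        (∀ (k : ℕ) (U : Subgroup W) (w : W), IsField ν U → IsFrob ν U w → ∀ ℓ ℓ' n,
          degFactor (families p W ν) ν U w (stack Fam.timesE X k) ℓ n =
            degFactor (families p W ν) ν U w (stack Fam.timesE X k) ℓ' n) →
        ∀ ℓ, WM (families p W ν) F ℓ X := fun hS hd ℓ =>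
      Pool.Agent.Q219.DU.wm_of_degrees h hF hS hW fun k U w hU hw n => (hd k U w hU hw ℓ ℓ₀ n).le
    have b1 : SameTraces (families p W ν) ν X → (∀ ℓ, WM (families p W ν) F ℓ X) →
        ∀ (k : ℕ) (U : Subgroup W) (w : W), IsField ν U → IsFrob ν U w →
          (families p W ν).Good ν U w 1 (stack Fam.timesE X k) := fun hS hWa k U w _ hw =>
      Pool.Agent.Q219.DU.good_of_wm h hF hS hWa k U w hw
    refine ⟨fun hS => ⟨fun k U w _ hw => ⟨Pool.Agent.Q219.DU.min_factor h hF hS hW k hw.1 hw.2.1,
      Pool.Agent.Q219.DU.good_iff_degree h hF hS hW k hw.1 hw.2.1⟩, fun ℓ => ⟨fun hW' k U w _ hw n =>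
        Pool.Agent.Q219.DU.degree_le h hF hS hW' k hw.1 hw.2.1 n ℓ₀, fun hdeg =>
          Pool.Agent.Q219.DU.wm_of_degrees h hF hS hW hdeg⟩⟩, ?_, ?_⟩
    · exact ⟨fun hQ => ⟨sameTraces_of_good h X hQ, fun k U w hU hw =>
        good_degree U w (hQ k U w hU hw)⟩, fun ⟨hS, hd⟩ => b1 hS (b3 hS hd)⟩
    · exact ⟨fun hQ => ⟨sameTraces_of_good h X hQ, b3 (sameTraces_of_good h X hQ) fun k U w hU hw =>
        good_degree U w (hQ k U w hU hw)⟩, fun ⟨hS, hWa⟩ => b1 hS hWa⟩
  · have hFr : ∀ G : W, dg ν G = 1 → IsFrob ν ⊤ G := fun G hG =>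
      ⟨Subgroup.mem_top G, by omega, fun u _ hu => by omega⟩
    have b0 : Q1 T ν → ∀ X, SameTraces T ν X := fun hQ => sameTraces_of_q1 h hF hQ
    have b1 : (∀ X, SameTraces T ν X) → (∀ X ℓ, WM T F ℓ X) → Q1 T ν := fun hS hW X G hG =>
      Pool.Agent.Q219.DG.good_of_wm h hF (hS X) (hW X) 0 ⊤ G (hFr G hG)
    have b2 : Q1 T ν → ∀ X ℓ ℓ' n, degFactor T ν ⊤ F X ℓ n = degFactor T ν ⊤ F X ℓ' n :=
      fun hQ X => good_degree ⊤ F (hQ X F hF)
    have b3 : (∀ X, SameTraces T ν X) →
        (∀ X ℓ ℓ' n, degFactor T ν ⊤ F X ℓ n = degFactor T ν ⊤ F X ℓ' n) →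
        ∀ X ℓ, WM T F ℓ X := by
      intro hS hd X ℓ
      obtain ⟨ℓ₀, hW₀⟩ := hW X
      exact Pool.Agent.Q219.DG.wm_of_degrees h hF (hS X) hW₀ fun k U w hU hw n =>
        (degrees_ext h hF hd (stack E X k) U w hU hw ℓ ℓ₀ n).le
    exact ⟨⟨fun hQ => ⟨b0 hQ, b2 hQ⟩, fun ⟨hS, hd⟩ => b1 hS (b3 hS hd)⟩,
      fun hQ => ⟨b0 hQ, b3 (b0 hQ) (b2 hQ)⟩, fun ⟨hS, hw⟩ => b1 hS hw⟩

end Pool.Agent.Results.MP_898f40_nt.DegreesSuffice
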