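import Pool.Agent.Q226.IL.DomMain

/-!
# Integrality and independence of `ℓ` of the local Euler factors of dominated varieties

Let `p` be a prime number and let `Y` be a smooth projective variety over `ℚ` such that there is a
surjective morphism `X → Y`, where `X` is a product of smooth complete intersections in projective
spaces, curves, surfaces and abelian varieties over `ℚ` (with any reduction at `p`). We prove that for
all `i` the polynomials `P_{p,ℓ}(T) = det (1 - F T | H^i(Y, ℚ_ℓ)^I)`, `ℓ ≠ p`, have integral
coefficients and do not depend on `ℓ`.

More generally this holds for all `Y` such that the motive of `Y` is a direct summand of the motive of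
a variety `X` with algebraic Kuenneth projectors and with pure cohomology at `p` (weight-monodromy
conjecture).

The cohomology of `Y` is the image of an idempotent correspondence `π` on the cohomology of `X`; the
traces of Frobenius on the invariants of inertia in this image are computed by T. Saito's theorem
(a hypothesis), the mean value over inertia, rational projections on the weights which are the same for
two primes `ℓ`, and the formula for the kernel of the monodromy operator (all proved in Lean).
-/

set_option autoImplicit false

open Polynomial

namespace Pool.Agent.Results.MP_898f40_nt.DominatedVarieties

open Pool.Agent.Q226.IL

/-- **Local Euler factors of dominated varieties.** Let `D` be the smooth projective varieties over `ℚ`,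
their correspondences and their `ℓ`-adic cohomology with the action of the Weil group at `p`, and
`Dom X Y` the relation that there is a surjective morphism `X → Y` (`hD`, `hdom`: known facts, in
particular T. Saito's theorem).

* If the Kuenneth projectors of `X` are algebraic, the weight-monodromy conjecture holds for `X` at
  `p`, and the motive of `Y` is a direct summand of the motive of `X`, then the assertion of the
  question holds for `Y`, `p` and all `i`.
* It holds for all varieties `Y` which are dominated by a product of complete intersections, curves,
  surfaces and abelian varieties. -/
theorem result (D : Data) (hD : D.Facts) (Dom : D.Var → D.Var → Prop) (hdom : D.DomFacts Dom) :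
    (∀ X Y : D.Var, D.HasKuenneth X → D.IsPure X → D.IsSummand X Y →
      ∀ i : ℤ, D.IntegralIndependent Y i) ∧
    ∀ C : VarClass D, C.Facts → ∀ Y : D.Var, C.Dominated Dom Y →
      ∀ i : ℤ, D.IntegralIndependent Y i :=
  ⟨fun _ Y h1 h2 h3 i => Data.summand_independent hD h1 h2 h3 (hdom.integral Y) i,
    fun _ hC _ hY i => Data.dominated_independent hD hC hdom hY i⟩

end Pool.Agent.Results.MP_898f40_nt.DominatedVarieties
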