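import Pool.Agent.Q219.DU.Fam

/-!
# The local Euler factors of the products with powers of a Tate curve

For an elliptic curve `E` over `ℚ` with split multiplicative reduction at `p` the kernel of `N` on `V ⊗ H^1(E)` is the
kernel of `N ^ 2` on `V`, and the kernel of `N ^ m` on `V ⊗ H^1(E)` is the sum of the kernel of `N ^ (m + 1)` on `V` and a
Tate twist of the kernel of `N ^ (m - 1)` on `V`. So, for ONE family `X` of Weil–Deligne representations (for example
that of a smooth projective variety) and one finite extension of `ℚ_p`, the Euler factors of `X × E ^ k`, `k ≤ k₀`, are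
integral and independent of `ℓ` if and only if this is true for the characteristic polynomials of the Frobenius on the
inertia invariants in the kernels of `N ^ m` on the cohomology of `X`, `m ≤ k₀ + 1`. Nothing is assumed.
-/

set_option autoImplicit false

namespace Pool.Agent.Results.MP_898f40_nt.TateCurvePowers

open Pool.Agent.Q173.WD Pool.Agent.Q219.DU

variable {p : ℕ} [hp : Fact p.Prime] {W : Type} [Group W] [TopologicalSpace W]

/-- For every family `X`, every finite extension `K` of `ℚ_p` (with Weil group `U` and Frobenius element `w`) and all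
`k₀`: the Euler factors over `K` of the `X × E ^ k`, `k ≤ k₀`, have integral coefficients and do not depend on
`ℓ` if and only if this is true for the polynomials `det(1 - T w)` on the inertia invariants of `X` in the kernel of
`N ^ m`, for all `m ≤ k₀ + 1` and all degrees `n`. -/
theorem result (ν : W →* Multiplicative ℤ) (hν : IsOpen (ν.ker : Set W)) :
    ∀ (X : Fam p W ν) (U : Subgroup W) (w : W), IsField ν U → IsFrob ν U w → ∀ k₀ : ℕ,
      ((∀ k ≤ k₀, (families p W ν).Good ν U w 1 (stack Fam.timesE X k)) ↔
        ∀ m ≤ k₀ + 1, (families p W ν).Good ν U w m X) := by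
  intro X U w _ hf k₀
  have hT : Core (families p W ν) ν Fam.timesE := core hν
  have h1 := Pool.Agent.Q219.DU.stack_iff hT hf.1 X k₀
  constructor
  · intro h m hm
    exact (Pool.Agent.Q219.DU.good_iff hT hf.1 hf.2.1 m X).2
      (h1.1 (fun k hk => (Pool.Agent.Q219.DU.good_iff hT hf.1 hf.2.1 1 _).1 (h k hk)) m hm)
  · intro h k hk
    exact (Pool.Agent.Q219.DU.good_iff hT hf.1 hf.2.1 1 _).2
      (h1.2 (fun m hm => (Pool.Agent.Q219.DU.good_iff hT hf.1 hf.2.1 m X).1 (h m hm)) k hk)

end Pool.Agent.Results.MP_898f40_nt.TateCurvePowers
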