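import Pool.Agent.Q219.DU.Fam
import Pool.Agent.Q219.DU.El

/-!
# The local Euler factors of the products with Tate curves determine the Weil–Deligne representations

For an elliptic curve `E` over `ℚ` with split multiplicative reduction at `p` the kernel of `N` on `V ⊗ H^1(E)` is the
kernel of `N ^ 2` on `V`, and the kernel of `N ^ m` on `V ⊗ H^1(E)` is the sum of the kernel of `N ^ (m + 1)` on `V` and a
Tate twist of the kernel of `N ^ (m - 1)` on `V`. So the independence of `ℓ` of the Euler factors of all `X × E ^ k` over
all finite extensions of `ℚ_p` implies it for the whole Weil–Deligne representations of `X` (no hypotheses), and the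
statement of Q1 for all smooth projective varieties is EQUIVALENT to the same statement for the whole Weil–Deligne
representations.
-/

set_option autoImplicit false

namespace Pool.Agent.Results.MP_898f40_nt.WholeRepresentations

open Pool.Agent.Q173.WD Pool.Agent.Q219.DU

variable {p : ℕ} [hp : Fact p.Prime] {W : Type} [Group W] [TopologicalSpace W]

/-- The statement of Q1 for the prime `p` and the varieties of the class `C`: for all `X`, `n` and every geometric
Frobenius element `F` the polynomial `det(1 - T F)` on the inertia invariants (the invariants of the inertia group in the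
kernel of `N`) has integral coefficients and does not depend on `ℓ`. -/
def Q1 {C : Type*} (T : Theory p W C) (ν : W →* Multiplicative ℤ) : Prop :=
  ∀ (X : C) (F : W), dg ν F = 1 → T.Good ν ⊤ F 1 X

/-- No hypotheses in (1), (2): let `X` be any family of Weil–Deligne representations such that the Euler factors of all
`X × E ^ k` over all finite extensions of `ℚ_p` have integral coefficients and do not depend on `ℓ`. Then

(1) for all `n`, `m` and all `w` of positive degree in the Weil group of `ℚ_p` the characteristic polynomial of `w` on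
the kernel of `N ^ m` in degree `n` has integral coefficients and does not depend on `ℓ`;

(2) the dimensions of the inertia invariants (of all finite extensions) in the kernels of the `N ^ m` do not depend on
`ℓ`.

(3) Let `C` be a class of smooth projective varieties over `ℚ` with the known properties. Q1 holds for `C` if and only if
for all `X`, `n`, `m` and all finite extensions of `ℚ_p` the polynomials `det(1 - T w)` on the inertia invariants in the
kernel of `N ^ m` have integral coefficients and do not depend on `ℓ`; and then (1), (2) hold for all `X` in `C`. -/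
theorem result [IsTopologicalGroup W] (ν : W →* Multiplicative ℤ) (hν : IsOpen (ν.ker : Set W)) :
    (∀ X : Fam p W ν, (∀ (k : ℕ) (U : Subgroup W) (w : W), IsField ν U → IsFrob ν U w →
        (families p W ν).Good ν U w 1 (stack Fam.timesE X k)) →
      (∀ w : W, 0 < dg ν w → ∀ m, (families p W ν).GoodChar w m X) ∧
      (∀ U : Subgroup W, IsField ν U → ∀ m n ℓ ℓ',
        (X.H ℓ n).invDim ν U m = (X.H ℓ' n).invDim ν U m)) ∧
    (∀ (C : Type) (T : Theory p W C) (E : C → C), T.IsKnown ν E →
      (Q1 T ν ↔ ∀ (X : C) (U : Subgroup W) (w : W), IsField ν U → IsFrob ν U w → ∀ m, T.Good ν U w m X) ∧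
      (Q1 T ν → ∀ (X : C) (w : W), 0 < dg ν w → ∀ m, T.GoodChar w m X) ∧
      (Q1 T ν → ∀ (X : C) (U : Subgroup W), IsField ν U → ∀ m n ℓ ℓ',
        (T.H X ℓ n).invDim ν U m = (T.H X ℓ' n).invDim ν U m)) := by
  constructor
  · intro X hQ
    have hT : Core (families p W ν) ν Fam.timesE := core hν
    have hJ : ∀ (U : Subgroup W) (w : W), IsField ν U → IsFrob ν U w → ∀ m, J (families p W ν) ν U w m X :=
      fun U w hU hf m => (Pool.Agent.Q219.DU.stack_iff hT hf.1 X m).1
        (fun k _ => (Pool.Agent.Q219.DU.good_iff hT hf.1 hf.2.1 1 _).1 (hQ k U w hU hf)) m (by omega)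
    refine ⟨fun w h0 m n => ?_, fun U hU m n ℓ ℓ' => ?_⟩
    · refine RatSame.same (Pool.Agent.Q219.DU.elements hT X hJ h0 m n) ?_
      intro ℓ
      exact integral_resChar _ ((hT.rep X ℓ n).ker_map w m) (hT.int X ℓ n w h0)
    · obtain ⟨w, hf⟩ := exists_frob hU
      obtain ⟨R, hR⟩ := hJ U w hU hf m n
      have h1 : ∀ ℓ, (X.H ℓ n).invDim ν U m = R.natDegree := by
        intro ℓ
        unfold Dat.invDim
        rw [← LinearMap.charpoly_natDegree (((X.H ℓ n).ρ w).restrict ((X.rep ℓ n).inv_map hf.1 m)),
          ← (X.rep ℓ n).pol_eq hf.1]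
        have h2 : (X.H ℓ n).pol ν U w m = _ := hR ℓ
        rw [h2, Polynomial.natDegree_map]
      rw [h1, h1]
  · intro C T E hT
    obtain ⟨F, hF⟩ := hT.frob
    have hQ : Q1 T ν ↔ ∀ X, J T ν ⊤ F 1 X := by
      constructor
      · intro h X
        exact (Pool.Agent.Q173.WD.good_iff hT (Subgroup.mem_top F) (by omega) 1 X).1 (h X F hF)
      · intro h X G hG
        have h1 := (all_iff hT hF).1 h ⊤ G ⟨isOpen_univ, G, Subgroup.mem_top G, by omega⟩
          ⟨Subgroup.mem_top G, by omega, fun u _ hu => by omega⟩ 1 X
        exact (Pool.Agent.Q173.WD.good_iff hT (Subgroup.mem_top G) (by omega) 1 X).2 h1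
    refine ⟨?_, ?_, ?_⟩
    · rw [hQ, all_iff hT hF]
      constructor
      · intro h X U w hU hf m
        exact (Pool.Agent.Q173.WD.good_iff hT hf.1 hf.2.1 m X).2 (h U w hU hf m X)
      · intro h U w hU hf m X
        exact (Pool.Agent.Q173.WD.good_iff hT hf.1 hf.2.1 m X).1 (h X U w hU hf m)
    · intro h X w h0 m n
      refine RatSame.same (Pool.Agent.Q173.WD.elements hT ((all_iff hT hF).1 (hQ.1 h)) h0 m X n) ?_
      intro ℓ
      exact integral_resChar _ ((hT.rep X ℓ n).ker_map w m) (hT.int X ℓ n w h0)
    · intro h X U hU m n ℓ ℓ'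
      obtain ⟨w, hf⟩ := exists_frob hU
      exact dim_eq hT hf.1 m X n ((all_iff hT hF).1 (hQ.1 h) U w hU hf m X n) ℓ ℓ'

end Pool.Agent.Results.MP_898f40_nt.WholeRepresentations
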